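import Pool.Agent.Helper60.J.Poly
/-! Two vanishing contour integrals of module CI (helper31); statements unfolded. -/
namespace IP.Junc
open Polynomial Metric

theorem ciz_cc_sub (x : ℂ) : x ^ 3 - 3 * x - 2 = (x - 2) * (x + 1) ^ 2 := by ring
theorem ciz_cc_add (x : ℂ) : x ^ 3 - 3 * x + 2 = (x + 2) * (x - 1) ^ 2 := by ring

/-- the zero of order `2m+1` at `x = 2` -/
theorem ciz_fe (m : ℕ) : ∃ T : ℂ[X], ∀ x : ℂ,
    (FP m).eval (x ^ 3 - 3 * x) + (FQ m).eval (x ^ 3 - 3 * x) * x = (x - 2) ^ (2 * m + 1) * T.eval x := by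
  obtain ⟨T, hT⟩ := F_dvd m
  refine ⟨T, fun x => ?_⟩
  have h := congrArg (fun p => p.eval x) hT
  simp only [eval_add, eval_mul, eval_comp, eval_sub, eval_pow, eval_X, eval_C] at h
  exact h

theorem ciz_ball {x : ℂ} (hx : ‖x - 2‖ < 1) : x - 1 ≠ 0 ∧ x + 1 ≠ 0 ∧ x + 2 ≠ 0 := by
  refine ⟨fun h => ?_, fun h => ?_, fun h => ?_⟩
  · have : x - 2 = -1 := by linear_combination h
    rw [this] at hx
    norm_num at hx
  · have : x - 2 = -3 := by linear_combination h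
    rw [this] at hx
    norm_num at hx
  · have : x - 2 = -4 := by linear_combination h
    rw [this] at hx
    norm_num at hx

theorem ciz_CI2 {m c : ℕ} (h : m ≤ c) (q : ℕ) (A : ℂ[X]) :
    (∮ x in C((2 : ℂ), 1 / 2), (((FP c).eval (x ^ 3 - 3 * x) + (FQ c).eval (x ^ 3 - 3 * x) * x) * A.eval x) *
      (3 * x ^ 2 - 3) / ((x ^ 3 - 3 * x - 2) ^ (m + c + 1) * (x ^ 3 - 3 * x + 2) ^ (q + 1))) = 0 := by
  obtain ⟨T, hT⟩ := ciz_fe c
  have h0 : ∀ x ∈ sphere (2 : ℂ) (1 / 2), (((FP c).eval (x ^ 3 - 3 * x) + (FQ c).eval (x ^ 3 - 3 * x) * x) * A.eval x) *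
      (3 * x ^ 2 - 3) / ((x ^ 3 - 3 * x - 2) ^ (m + c + 1) * (x ^ 3 - 3 * x + 2) ^ (q + 1)) =
      ((x - 2) ^ (c - m) * T.eval x * A.eval x * (3 * x ^ 2 - 3)) /
        (((x + 1) ^ 2) ^ (m + c + 1) * ((x + 2) * (x - 1) ^ 2) ^ (q + 1)) := by
    intro x hx
    have hx2 : x - 2 ≠ 0 := by
      intro h
      rw [mem_sphere_iff_norm, h] at hx
      norm_num at hx
    rw [hT, ciz_cc_sub, ciz_cc_add, mul_pow (x - 2), show 2 * c + 1 = (m + c + 1) + (c - m) by omega, pow_add]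
    rw [show (x - 2) ^ (m + c + 1) * (x - 2) ^ (c - m) * T.eval x * A.eval x * (3 * x ^ 2 - 3) =
      (x - 2) ^ (m + c + 1) * ((x - 2) ^ (c - m) * T.eval x * A.eval x * (3 * x ^ 2 - 3)) by ring, mul_assoc
      ((x - 2) ^ (m + c + 1)) (((x + 1) ^ 2) ^ (m + c + 1)), mul_div_mul_left _ _ (pow_ne_zero _ hx2)]
  rw [circleIntegral.integral_congr (by norm_num) h0]
  have hne : ∀ x ∈ closedBall (2 : ℂ) (1 / 2),
      ((x + 1) ^ 2) ^ (m + c + 1) * ((x + 2) * (x - 1) ^ 2) ^ (q + 1) ≠ 0 := by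
    intro x hx
    rw [mem_closedBall_iff_norm] at hx
    obtain ⟨h1, h2, h3⟩ := ciz_ball (lt_of_le_of_lt hx (by norm_num))
    exact mul_ne_zero (pow_ne_zero _ (pow_ne_zero _ h2))
      (pow_ne_zero _ (mul_ne_zero h3 (pow_ne_zero _ h1)))
  refine Complex.circleIntegral_eq_zero_of_differentiable_on_off_countable (by norm_num)
    Set.countable_empty ?_ ?_
  · exact ContinuousOn.div (by fun_prop) (by fun_prop) hne
  · intro x hx
    exact DifferentiableAt.div (by fun_prop) (by fun_prop) (hne x (ball_subset_closedBall hx.1))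

theorem ciz_cos {z : ℂ} (hz : ‖z‖ ≤ 1 / 10) : ‖2 * Complex.cos (2 * z) - 2‖ < 1 := by
  have h1 : ‖(2 * z) * Complex.I‖ ≤ 1 := by
    rw [norm_mul, norm_mul, Complex.norm_I]
    norm_num
    linarith
  have h2 : ‖-(2 * z) * Complex.I‖ ≤ 1 := by
    rw [neg_mul, norm_neg]
    exact h1
  have e : 2 * Complex.cos (2 * z) - 2 = (Complex.exp ((2 * z) * Complex.I) - 1) +
      (Complex.exp (-(2 * z) * Complex.I) - 1) := by
    rw [Complex.cos]
    ring
  rw [e]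
  have b1 := Complex.norm_exp_sub_one_le h1
  have b2 := Complex.norm_exp_sub_one_le h2
  have n1 : ‖(2 * z) * Complex.I‖ = 2 * ‖z‖ := by
    rw [norm_mul, norm_mul, Complex.norm_I]
    norm_num
  have n2 : ‖-(2 * z) * Complex.I‖ = 2 * ‖z‖ := by
    rw [neg_mul, norm_neg, n1]
  rw [n1] at b1
  rw [n2] at b2
  calc _ ≤ ‖Complex.exp ((2 * z) * Complex.I) - 1‖ + ‖Complex.exp (-(2 * z) * Complex.I) - 1‖ := norm_add_le _ _
    _ ≤ 2 * (2 * ‖z‖) + 2 * (2 * ‖z‖) := add_le_add b1 b2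
    _ < 1 := by linarith

theorem ciz_ne {z : ℂ} (hz : ‖z‖ = 1 / 10) : 2 * Complex.cos (2 * z) - 2 ≠ 0 := by
  have e : 2 * Complex.cos (2 * z) - 2 = -4 * Complex.sin z ^ 2 := by
    rw [Complex.cos_two_mul]
    linear_combination 4 * Complex.sin_sq_add_cos_sq z
  rw [e]
  refine mul_ne_zero (by norm_num) (pow_ne_zero _ fun h => ?_)
  rw [Complex.sin_eq_zero_iff] at h
  obtain ⟨k, hk⟩ := h
  rw [hk, norm_mul, Complex.norm_intCast, Complex.norm_real, Real.norm_eq_abs, abs_of_pos Real.pi_pos] at hz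
  have hpi := Real.pi_gt_three
  rcases eq_or_ne k 0 with rfl | hk0
  · norm_num at hz
  · have : (1 : ℝ) ≤ |(k : ℝ)| := by exact_mod_cast Int.one_le_abs hk0
    nlinarith

theorem ciz_CB0 {m c : ℕ} (h : c ≤ m) (q : ℕ) {G : ℂ → ℂ} (hG : Differentiable ℂ G) :
    (∮ z in C((0 : ℂ), 1 / 10), ((FP m).eval ((2 * Complex.cos (2 * z)) ^ 3 - 3 * (2 * Complex.cos (2 * z))) +
      (FQ m).eval ((2 * Complex.cos (2 * z)) ^ 3 - 3 * (2 * Complex.cos (2 * z))) * (2 * Complex.cos (2 * z))) * G z /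
      ((2 * Complex.cos (2 * z) - 1) * ((2 * Complex.cos (2 * z)) ^ 3 - 3 * (2 * Complex.cos (2 * z)) - 2) ^ (m + c + 1) *
        ((2 * Complex.cos (2 * z)) ^ 3 - 3 * (2 * Complex.cos (2 * z)) + 2) ^ q)) = 0 := by
  obtain ⟨T, hT⟩ := ciz_fe m
  set X : ℂ → ℂ := fun z => 2 * Complex.cos (2 * z) with hX
  have hXd : Differentiable ℂ X := by rw [hX]; fun_prop
  have h0 : ∀ z ∈ sphere (0 : ℂ) (1 / 10), ((FP m).eval (X z ^ 3 - 3 * X z) + (FQ m).eval (X z ^ 3 - 3 * X z) * X z) * G z /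
      ((X z - 1) * (X z ^ 3 - 3 * X z - 2) ^ (m + c + 1) * (X z ^ 3 - 3 * X z + 2) ^ q) =
      ((X z - 2) ^ (m - c) * T.eval (X z) * G z) /
        ((X z - 1) * ((X z + 1) ^ 2) ^ (m + c + 1) * ((X z + 2) * (X z - 1) ^ 2) ^ q) := by
    intro z hz
    rw [mem_sphere_zero_iff_norm] at hz
    have hx2 : X z - 2 ≠ 0 := ciz_ne hz
    rw [hT, ciz_cc_sub, ciz_cc_add, mul_pow (X z - 2), show 2 * m + 1 = (m + c + 1) + (m - c) by omega, pow_add]
    rw [show (X z - 2) ^ (m + c + 1) * (X z - 2) ^ (m - c) * T.eval (X z) * G z =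
      (X z - 2) ^ (m + c + 1) * ((X z - 2) ^ (m - c) * T.eval (X z) * G z) by ring,
      show (X z - 1) * ((X z - 2) ^ (m + c + 1) * ((X z + 1) ^ 2) ^ (m + c + 1)) * ((X z + 2) * (X z - 1) ^ 2) ^ q =
      (X z - 2) ^ (m + c + 1) * ((X z - 1) * ((X z + 1) ^ 2) ^ (m + c + 1) * ((X z + 2) * (X z - 1) ^ 2) ^ q) by ring,
      mul_div_mul_left _ _ (pow_ne_zero _ hx2)]
  rw [circleIntegral.integral_congr (by norm_num) h0]
  have hne : ∀ z ∈ closedBall (0 : ℂ) (1 / 10),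
      (X z - 1) * ((X z + 1) ^ 2) ^ (m + c + 1) * ((X z + 2) * (X z - 1) ^ 2) ^ q ≠ 0 := by
    intro z hz
    rw [mem_closedBall_zero_iff] at hz
    obtain ⟨h1, h2, h3⟩ := ciz_ball (ciz_cos hz)
    exact mul_ne_zero (mul_ne_zero h1 (pow_ne_zero _ (pow_ne_zero _ h2)))
      (pow_ne_zero _ (mul_ne_zero h3 (pow_ne_zero _ h1)))
  have hTX : Differentiable ℂ (fun z => T.eval (X z)) := T.differentiable.comp hXd
  have hnum : Differentiable ℂ (fun z => (X z - 2) ^ (m - c) * T.eval (X z) * G z) :=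
    (((hXd.sub_const 2).pow _).mul hTX).mul hG
  have hden : Differentiable ℂ (fun z => (X z - 1) * ((X z + 1) ^ 2) ^ (m + c + 1) * ((X z + 2) * (X z - 1) ^ 2) ^ q) :=
    ((hXd.sub_const 1).mul (((hXd.add_const 1).pow 2).pow _)).mul
      (((hXd.add_const 2).mul ((hXd.sub_const 1).pow 2)).pow _)
  refine Complex.circleIntegral_eq_zero_of_differentiable_on_off_countable (by norm_num)
    Set.countable_empty ?_ ?_
  · exact ContinuousOn.div hnum.continuous.continuousOn hden.continuous.continuousOn hne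
  · intro z hz
    exact DifferentiableAt.div hnum.differentiableAt hden.differentiableAt
      (hne z (ball_subset_closedBall hz.1))
end IP.Junc
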