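import Mathlib

/-!
# The width chain of the T-junction (helper31)

`K` is the two-step kernel of the discrete Bessel walk of dimension 4/3 on the odd
widths `2 m + 1`, reflected at `m = 0`.  `x m = 2 m + 3/2`.
-/

namespace JL31

/-- up rate of the width chain -/
noncomputable def ku (m : ℕ) : ℝ :=
  (6 * (m : ℝ) + 5) * (6 * m + 8) / (9 * (4 * m + 3) * (4 * m + 5))

/-- down rate of the width chain -/
noncomputable def kd (m : ℕ) : ℝ :=
  (6 * (m : ℝ) + 1) * (6 * m + 4) / (9 * (4 * m + 1) * (4 * m + 3))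

/-- the kernel (reflected at `m = 0` through `0 - 1 = 0`) -/
noncomputable def K (g : ℕ → ℝ) (m : ℕ) : ℝ :=
  g m + ku m * (g (m + 1) - g m) + kd m * (g (m - 1) - g m)

/-- the product kernel -/
noncomputable def KK (f : ℕ → ℕ → ℝ) (m q : ℕ) : ℝ :=
  K (fun m' => K (fun q' => f m' q') q) m

/-- the coordinate -/
noncomputable def xx (m : ℕ) : ℝ := 2 * (m : ℝ) + 3 / 2

theorem ku_nonneg (m : ℕ) : 0 ≤ ku m := by unfold ku; positivity
theorem kd_nonneg (m : ℕ) : 0 ≤ kd m := by unfold kd; positivity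

theorem ku_pos (m : ℕ) : 0 < ku m := by unfold ku; positivity
theorem kd_pos (m : ℕ) : 0 < kd m := by unfold kd; positivity

theorem ku_le (m : ℕ) : ku m ≤ 1 / 2 := by
  unfold ku
  rw [div_le_div_iff₀ (by positivity) (by norm_num)]
  have hm : (0 : ℝ) ≤ m := Nat.cast_nonneg m
  nlinarith

theorem kd_le (m : ℕ) : kd m ≤ 1 / 2 := by
  unfold kd
  rw [div_le_div_iff₀ (by positivity) (by norm_num)]
  have hm : (0 : ℝ) ≤ m := Nat.cast_nonneg m
  nlinarith

theorem kukd_le (m : ℕ) : ku m + kd m ≤ 1 := by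
  have := ku_le m
  have := kd_le m
  linarith

theorem xx_pos (m : ℕ) : 0 < xx m := by unfold xx; positivity
theorem xx_ge (m : ℕ) : 3 / 2 ≤ xx m := by
  unfold xx
  have hm : (0 : ℝ) ≤ m := Nat.cast_nonneg m
  linarith
theorem xx_succ (m : ℕ) : xx (m + 1) = xx m + 2 := by unfold xx; push_cast; ring
theorem xx_zero : xx 0 = 3 / 2 := by unfold xx; norm_num
theorem xx_mono {a b : ℕ} (h : a ≤ b) : xx a ≤ xx b := by
  unfold xx
  have : (a : ℝ) ≤ b := by exact_mod_cast h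
  linarith
theorem xx_pred_le (m : ℕ) : xx (m - 1) ≤ xx m := xx_mono (Nat.sub_le m 1)

/-! ## algebra of `K` -/

theorem K_add (f g : ℕ → ℝ) (m : ℕ) : K (fun a => f a + g a) m = K f m + K g m := by
  unfold K; ring

theorem K_sub (f g : ℕ → ℝ) (m : ℕ) : K (fun a => f a - g a) m = K f m - K g m := by
  unfold K; ring

theorem K_neg (f : ℕ → ℝ) (m : ℕ) : K (fun a => - f a) m = - K f m := by
  unfold K; ring

theorem K_smul (c : ℝ) (f : ℕ → ℝ) (m : ℕ) : K (fun a => c * f a) m = c * K f m := by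
  unfold K; ring

theorem K_mul_const (c : ℝ) (f : ℕ → ℝ) (m : ℕ) : K (fun a => f a * c) m = K f m * c := by
  unfold K; ring

theorem K_const (c : ℝ) (m : ℕ) : K (fun _ => c) m = c := by
  unfold K; ring

theorem K_congr {f g : ℕ → ℝ} {m : ℕ} (h0 : f m = g m) (h1 : f (m + 1) = g (m + 1))
    (h2 : f (m - 1) = g (m - 1)) : K f m = K g m := by
  unfold K; rw [h0, h1, h2]

theorem K_le {f : ℕ → ℝ} {m : ℕ} {B : ℝ} (h0 : f m ≤ B) (h1 : f (m + 1) ≤ B)
    (h2 : f (m - 1) ≤ B) : K f m ≤ B := by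
  unfold K
  have a := ku_nonneg m
  have b := kd_nonneg m
  have c := kukd_le m
  nlinarith [mul_le_mul_of_nonneg_left h1 a, mul_le_mul_of_nonneg_left h2 b,
    mul_le_mul_of_nonneg_left h0 (show 0 ≤ 1 - ku m - kd m by linarith)]

theorem K_ge {f : ℕ → ℝ} {m : ℕ} {B : ℝ} (h0 : B ≤ f m) (h1 : B ≤ f (m + 1))
    (h2 : B ≤ f (m - 1)) : B ≤ K f m := by
  have := K_le (f := fun a => - f a) (m := m) (B := -B) (by simpa using h0)
    (by simpa using h1) (by simpa using h2)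
  rw [K_neg] at this
  linarith

theorem K_abs {f : ℕ → ℝ} {m : ℕ} {B : ℝ} (h0 : |f m| ≤ B) (h1 : |f (m + 1)| ≤ B)
    (h2 : |f (m - 1)| ≤ B) : |K f m| ≤ B := by
  rw [abs_le] at h0 h1 h2 ⊢
  exact ⟨K_ge h0.1 h1.1 h2.1, K_le h0.2 h1.2 h2.2⟩

theorem K_mono {f g : ℕ → ℝ} {m : ℕ} (h0 : f m ≤ g m) (h1 : f (m + 1) ≤ g (m + 1))
    (h2 : f (m - 1) ≤ g (m - 1)) : K f m ≤ K g m := by
  have := K_ge (f := fun a => g a - f a) (m := m) (B := 0) (by simpa using h0)
    (by simpa using h1) (by simpa using h2)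
  rw [K_sub] at this
  linarith

theorem KK_add (f g : ℕ → ℕ → ℝ) (m q : ℕ) :
    KK (fun a b => f a b + g a b) m q = KK f m q + KK g m q := by
  unfold KK K; ring

theorem KK_sub (f g : ℕ → ℕ → ℝ) (m q : ℕ) :
    KK (fun a b => f a b - g a b) m q = KK f m q - KK g m q := by
  unfold KK K; ring

theorem KK_smul (c : ℝ) (f : ℕ → ℕ → ℝ) (m q : ℕ) :
    KK (fun a b => c * f a b) m q = c * KK f m q := by
  unfold KK K; ring

theorem KK_const (c : ℝ) (m q : ℕ) : KK (fun _ _ => c) m q = c := by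
  unfold KK K; ring

theorem KK_fst (f : ℕ → ℝ) (m q : ℕ) : KK (fun a _ => f a) m q = K f m := by
  unfold KK K; ring

theorem KK_snd (f : ℕ → ℝ) (m q : ℕ) : KK (fun _ b => f b) m q = K f q := by
  unfold KK K; ring

theorem KK_mul (f g : ℕ → ℝ) (m q : ℕ) : KK (fun a b => f a * g b) m q = K f m * K g q := by
  unfold KK K; ring

/-- the nine neighbours -/
def nb (m q m' q' : ℕ) : Prop :=
  (m' = m - 1 ∨ m' = m ∨ m' = m + 1) ∧ (q' = q - 1 ∨ q' = q ∨ q' = q + 1)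

theorem KK_le {f : ℕ → ℕ → ℝ} {m q : ℕ} {B : ℝ}
    (h : ∀ m' q', nb m q m' q' → f m' q' ≤ B) : KK f m q ≤ B := by
  unfold KK
  apply K_le
  · apply K_le <;> apply h <;> simp [nb]
  · apply K_le <;> apply h <;> simp [nb]
  · apply K_le <;> apply h <;> simp [nb]

theorem KK_ge {f : ℕ → ℕ → ℝ} {m q : ℕ} {B : ℝ}
    (h : ∀ m' q', nb m q m' q' → B ≤ f m' q') : B ≤ KK f m q := by
  unfold KK
  apply K_ge
  · apply K_ge <;> apply h <;> simp [nb]
  · apply K_ge <;> apply h <;> simp [nb]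
  · apply K_ge <;> apply h <;> simp [nb]

theorem KK_abs {f : ℕ → ℕ → ℝ} {m q : ℕ} {B : ℝ}
    (h : ∀ m' q', nb m q m' q' → |f m' q'| ≤ B) : |KK f m q| ≤ B := by
  rw [abs_le]
  exact ⟨KK_ge fun m' q' hn => (abs_le.1 (h m' q' hn)).1,
    KK_le fun m' q' hn => (abs_le.1 (h m' q' hn)).2⟩

theorem KK_congr {f g : ℕ → ℕ → ℝ} {m q : ℕ}
    (h : ∀ m' q', nb m q m' q' → f m' q' = g m' q') : KK f m q = KK g m q := by
  have h1 : KK (fun a b => f a b - g a b) m q ≤ 0 :=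
    KK_le fun m' q' hn => by rw [h m' q' hn]; simp
  have h2 : 0 ≤ KK (fun a b => f a b - g a b) m q :=
    KK_ge fun m' q' hn => by rw [h m' q' hn]; simp
  rw [KK_sub] at h1 h2
  linarith

/-! ## exact moments -/

theorem K_sq {m : ℕ} (hm : 1 ≤ m) : K (fun a => xx a ^ 2) m = xx m ^ 2 + 8 / 3 := by
  obtain ⟨k, rfl⟩ : ∃ k, m = k + 1 := ⟨m - 1, by omega⟩
  unfold K ku kd xx
  have h1 : (4 * ((k + 1 : ℕ) : ℝ) + 3) ≠ 0 := by positivity
  have h2 : (4 * ((k + 1 : ℕ) : ℝ) + 5) ≠ 0 := by positivity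
  have h3 : (4 * ((k + 1 : ℕ) : ℝ) + 1) ≠ 0 := by positivity
  simp only [Nat.add_sub_cancel]
  push_cast at *
  field_simp
  ring

theorem K_sq_zero : K (fun a => xx a ^ 2) 0 = xx 0 ^ 2 + 8 / 3 + 8 / 27 := by
  unfold K ku kd xx
  norm_num

/-- centred first moment of the increment of `x^2` -/
theorem K_d1 {m : ℕ} (hm : 1 ≤ m) : K (fun a => xx a ^ 2 - xx m ^ 2) m = 8 / 3 := by
  rw [K_sub (fun a => xx a ^ 2) (fun _ => xx m ^ 2), K_sq hm, K_const]
  ring

theorem K_d1_zero : K (fun a => xx a ^ 2 - xx 0 ^ 2) 0 = 80 / 27 := by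
  rw [K_sub (fun a => xx a ^ 2) (fun _ => xx 0 ^ 2), K_sq_zero, K_const]
  ring

/-- centred second moment -/
theorem K_d2 {m : ℕ} (hm : 1 ≤ m) :
    K (fun a => (xx a ^ 2 - xx m ^ 2) ^ 2) m = 8 * xx m ^ 2 + 110 / 9 := by
  obtain ⟨k, rfl⟩ : ∃ k, m = k + 1 := ⟨m - 1, by omega⟩
  unfold K ku kd xx
  have h1 : (4 * ((k + 1 : ℕ) : ℝ) + 3) ≠ 0 := by positivity
  have h2 : (4 * ((k + 1 : ℕ) : ℝ) + 5) ≠ 0 := by positivity
  have h3 : (4 * ((k + 1 : ℕ) : ℝ) + 1) ≠ 0 := by positivity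
  simp only [Nat.add_sub_cancel]
  push_cast at *
  field_simp
  ring

theorem K_d2_zero : K (fun a => (xx a ^ 2 - xx 0 ^ 2) ^ 2) 0 = 800 / 27 := by
  unfold K ku kd xx
  norm_num

theorem d_abs {m a : ℕ} (h : a = m - 1 ∨ a = m ∨ a = m + 1) :
    |xx a ^ 2 - xx m ^ 2| ≤ 4 * xx m + 4 := by
  have hp := xx_pos m
  rcases h with rfl | rfl | rfl
  · rcases Nat.eq_zero_or_pos m with rfl | hm
    · simp; linarith
    · obtain ⟨k, rfl⟩ : ∃ k, m = k + 1 := ⟨m - 1, by omega⟩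
      simp only [Nat.add_sub_cancel]
      rw [xx_succ]
      have := xx_pos k
      rw [abs_le]; constructor <;> nlinarith
  · simp; linarith
  · rw [xx_succ, abs_le]; constructor <;> nlinarith

/-! ## barriers -/

theorem K_x_ge (m : ℕ) : xx m ≤ K xx m := by
  rcases Nat.eq_zero_or_pos m with rfl | hm
  · unfold K ku kd xx; norm_num
  · obtain ⟨k, rfl⟩ : ∃ k, m = k + 1 := ⟨m - 1, by omega⟩
    have : K xx (k + 1) - xx (k + 1) = 2 * (ku (k + 1) - kd (k + 1)) := by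
      unfold K xx
      simp only [Nat.add_sub_cancel]
      push_cast
      ring
    have h2 : kd (k + 1) ≤ ku (k + 1) := by
      unfold ku kd
      rw [div_le_div_iff₀ (by positivity) (by positivity)]
      have hk : (0 : ℝ) ≤ k := Nat.cast_nonneg k
      push_cast
      have : 0 ≤ (4 * ((k : ℝ) + 1) + 3) *
          (9 * ((6 * ((k : ℝ) + 1) + 5) * (6 * ((k : ℝ) + 1) + 8) * (4 * ((k : ℝ) + 1) + 1)
          - (6 * ((k : ℝ) + 1) + 1) * (6 * ((k : ℝ) + 1) + 4) * (4 * ((k : ℝ) + 1) + 5))) := by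
        apply mul_nonneg (by positivity)
        ring_nf
        positivity
      nlinarith
    linarith

theorem K_x_zero : K xx 0 = xx 0 + 16 / 27 := by
  unfold K ku kd xx; norm_num

/-- the square root is superharmonic for the (killed) chain -/
theorem K_sqrt_le {m : ℕ} (hm : 1 ≤ m) :
    K (fun a => Real.sqrt (xx a)) m ≤ Real.sqrt (xx m) := by
  obtain ⟨k, rfl⟩ : ∃ k, m = k + 1 := ⟨m - 1, by omega⟩
  unfold K
  simp only [Nat.add_sub_cancel]
  set b := Real.sqrt (xx (k + 1)) with hb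
  set a := Real.sqrt (xx (k + 1 + 1)) with ha
  set c := Real.sqrt (xx k) with hc
  have hb2 : b ^ 2 = xx (k + 1) := Real.sq_sqrt (xx_pos _).le
  have ha2 : a ^ 2 = xx (k + 1) + 2 := by
    rw [ha, Real.sq_sqrt (xx_pos _).le, xx_succ (k + 1)]
  have hc2 : c ^ 2 = xx (k + 1) - 2 := by
    rw [hc, Real.sq_sqrt (xx_pos _).le, xx_succ k]; ring
  have hb0 : 0 < b := Real.sqrt_pos.2 (xx_pos _)
  have ha0 : 0 < a := Real.sqrt_pos.2 (xx_pos _)
  have hc0 : 0 < c := Real.sqrt_pos.2 (xx_pos _)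
  have hu := ku_pos (k + 1)
  have hd := kd_pos (k + 1)
  -- ratio bound `ku/kd ≤ 1 + 1/x`
  have hr : ku (k + 1) * xx (k + 1) ≤ kd (k + 1) * (xx (k + 1) + 1) := by
    unfold ku kd xx
    push_cast
    have hk : (0 : ℝ) ≤ k := Nat.cast_nonneg k
    rw [div_mul_eq_mul_div, div_mul_eq_mul_div, div_le_div_iff₀ (by positivity) (by positivity)]
    have : 0 ≤ (6 * ((k : ℝ) + 1) + 1) * (6 * ((k : ℝ) + 1) + 4) *
        (2 * ((k : ℝ) + 1) + 3 / 2 + 1) * (9 * (4 * ((k : ℝ) + 1) + 3) * (4 * ((k : ℝ) + 1) + 5))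
        - (6 * ((k : ℝ) + 1) + 5) * (6 * ((k : ℝ) + 1) + 8) *
        (2 * ((k : ℝ) + 1) + 3 / 2) * (9 * (4 * ((k : ℝ) + 1) + 1) * (4 * ((k : ℝ) + 1) + 3)) := by
      ring_nf
      positivity
    linarith
  -- `(a+b)/(b+c) ≥ 1 + 1/x`
  have hac : a + c ≤ 2 * b := by
    nlinarith [sq_nonneg (a - c), sq_nonneg (a + c - 2 * b)]
  have hbc : c ≤ b := by
    nlinarith
  have hab : b ≤ a := by nlinarith
  have hx : 0 < xx (k + 1) := xx_pos _
  -- a - b = 2/(a+b), b - c = 2/(b+c)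
  have e1 : (a - b) * (a + b) = 2 := by nlinarith
  have e2 : (b - c) * (b + c) = 2 := by nlinarith
  have e3 : (a - c) * (a + c) = 4 := by nlinarith
  -- key: x (a - c) ≥ b + c
  have hkey : b + c ≤ xx (k + 1) * (a - c) := by
    have h4 : (b + c) * (a + c) ≤ xx (k + 1) * 4 := by
      rw [← hb2]
      nlinarith [mul_le_mul (show b + c ≤ 2 * b by linarith) hac (by positivity) (by positivity)]
    have : (b + c) * (a + c) ≤ (xx (k + 1) * (a - c)) * (a + c) := by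
      calc (b + c) * (a + c) ≤ xx (k + 1) * 4 := h4
        _ = (xx (k + 1) * (a - c)) * (a + c) := by rw [← e3]; ring
    exact le_of_mul_le_mul_right this (by positivity)
  have hkey2 : (b + c) * (xx (k + 1) + 1) ≤ (a + b) * xx (k + 1) := by nlinarith
  -- ku (b + c) ≤ kd (a + b)
  have h5 : ku (k + 1) * (b + c) ≤ kd (k + 1) * (a + b) := by
    have h6 : ku (k + 1) * (b + c) * xx (k + 1) ≤ kd (k + 1) * (a + b) * xx (k + 1) := by
      calc ku (k + 1) * (b + c) * xx (k + 1) = (ku (k + 1) * xx (k + 1)) * (b + c) := by ring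
        _ ≤ (kd (k + 1) * (xx (k + 1) + 1)) * (b + c) :=
            mul_le_mul_of_nonneg_right hr (by positivity)
        _ = kd (k + 1) * ((b + c) * (xx (k + 1) + 1)) := by ring
        _ ≤ kd (k + 1) * ((a + b) * xx (k + 1)) := mul_le_mul_of_nonneg_left hkey2 hd.le
        _ = _ := by ring
    exact le_of_mul_le_mul_right h6 hx
  -- ku (a - b) ≤ kd (b - c)
  have h7 : ku (k + 1) * (a - b) ≤ kd (k + 1) * (b - c) := by
    have hp : 0 < (a + b) * (b + c) := by positivity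
    have : (ku (k + 1) * (a - b)) * ((a + b) * (b + c)) ≤
        (kd (k + 1) * (b - c)) * ((a + b) * (b + c)) := by
      calc (ku (k + 1) * (a - b)) * ((a + b) * (b + c))
          = ku (k + 1) * (b + c) * ((a - b) * (a + b)) := by ring
        _ = ku (k + 1) * (b + c) * 2 := by rw [e1]
        _ ≤ kd (k + 1) * (a + b) * 2 := by linarith
        _ = kd (k + 1) * (a + b) * ((b - c) * (b + c)) := by rw [e2]
        _ = _ := by ring
    exact le_of_mul_le_mul_right this hp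
  linarith

end JL31
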