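import Pool.Agent.Helper31.J.Chain

/-!
# Consistency of the exact limit function with the width chain (helper31)
-/

namespace JL31

/-- second order Taylor data of `V` at `(X, Y)`, with the limit equation -/
structure Tay (V : ℝ → ℝ → ℝ) (C ρ X Y A B AA AB BB : ℝ) : Prop where
  tay : ∀ h k : ℝ, |h| ≤ ρ → |k| ≤ ρ →
    |V (X + h) (Y + k) - (V X Y + (A * h + B * k +
      (AA * h ^ 2 + 2 * AB * (h * k) + BB * k ^ 2) / 2))| ≤ C * (|h| + |k|) ^ 3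
  pde : X * AA + 2 / 3 * A + (Y * BB + 2 / 3 * B) = 0
  bA : |A| ≤ C
  bB : |B| ≤ C
  bAA : |AA| ≤ C
  bAB : |AB| ≤ C
  bBB : |BB| ≤ C

/-- the rescaled limit function on the lattice of codes -/
noncomputable def vv (V : ℝ → ℝ → ℝ) (N : ℝ) (m q : ℕ) : ℝ :=
  V (xx m ^ 2 / N ^ 2) (xx q ^ 2 / N ^ 2)

/-- the constant of the consistency estimate -/
noncomputable def CC (C R : ℝ) : ℝ := C * ((16 * R) ^ 3 + 4 * R ^ 2 + 100)

/-- the Taylor polynomial at `(m, q)` -/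
noncomputable def PP (v0 A B AA AB BB N : ℝ) (m q a b : ℕ) : ℝ :=
  v0 + (A / N ^ 2 * (xx a ^ 2 - xx m ^ 2) + B / N ^ 2 * (xx b ^ 2 - xx q ^ 2) +
    (AA / (2 * N ^ 4) * (xx a ^ 2 - xx m ^ 2) ^ 2
      + AB / N ^ 4 * ((xx a ^ 2 - xx m ^ 2) * (xx b ^ 2 - xx q ^ 2))
      + BB / (2 * N ^ 4) * (xx b ^ 2 - xx q ^ 2) ^ 2))

theorem KK_PP (v0 A B AA AB BB N : ℝ) (m q : ℕ) :
    KK (PP v0 A B AA AB BB N m q) m q = v0 +
      (A / N ^ 2 * K (fun a => xx a ^ 2 - xx m ^ 2) m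
        + B / N ^ 2 * K (fun a => xx a ^ 2 - xx q ^ 2) q
        + (AA / (2 * N ^ 4) * K (fun a => (xx a ^ 2 - xx m ^ 2) ^ 2) m
          + AB / N ^ 4 * (K (fun a => xx a ^ 2 - xx m ^ 2) m
            * K (fun a => xx a ^ 2 - xx q ^ 2) q)
          + BB / (2 * N ^ 4) * K (fun a => (xx a ^ 2 - xx q ^ 2) ^ 2) q)) := by
  unfold KK K PP
  ring

/-- remainder -/
theorem rem {V : ℝ → ℝ → ℝ} {C ρ R N A B AA AB BB : ℝ} {m q : ℕ}
    (hC : 0 ≤ C) (hR : 1 ≤ R) (hN : 1 ≤ N) (hρ : 8 * R / N ≤ ρ)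
    (hm : xx m ≤ R * N) (hq : xx q ≤ R * N)
    (hT : Tay V C ρ (xx m ^ 2 / N ^ 2) (xx q ^ 2 / N ^ 2) A B AA AB BB) :
    ∀ a b, nb m q a b →
    |vv V N a b - PP (vv V N m q) A B AA AB BB N m q a b| ≤ C * (16 * R) ^ 3 / N ^ 3 := by
  intro a b hn
  have hN0 : 0 < N := by linarith
  have hN2 : (N ^ 2) ≠ 0 := by positivity
  have bd : ∀ {m a : ℕ}, xx m ≤ R * N → (a = m - 1 ∨ a = m ∨ a = m + 1) →
      |(xx a ^ 2 - xx m ^ 2) / N ^ 2| ≤ 8 * R / N := by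
    intro m a hm h
    rw [abs_div, abs_of_pos (show 0 < N ^ 2 by positivity), div_le_div_iff₀ (by positivity) hN0]
    have h1 := d_abs h
    have : 4 * xx m + 4 ≤ 8 * R * N := by nlinarith
    nlinarith [abs_nonneg (xx a ^ 2 - xx m ^ 2)]
  have h1 := bd hm hn.1
  have h2 := bd hq hn.2
  have := hT.tay _ _ (h1.trans hρ) (h2.trans hρ)
  have e1 : xx m ^ 2 / N ^ 2 + (xx a ^ 2 - xx m ^ 2) / N ^ 2 = xx a ^ 2 / N ^ 2 := by
    field_simp; ring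
  have e2 : xx q ^ 2 / N ^ 2 + (xx b ^ 2 - xx q ^ 2) / N ^ 2 = xx b ^ 2 / N ^ 2 := by
    field_simp; ring
  rw [e1, e2] at this
  have e3 : vv V N a b - PP (vv V N m q) A B AA AB BB N m q a b =
      V (xx a ^ 2 / N ^ 2) (xx b ^ 2 / N ^ 2) - (V (xx m ^ 2 / N ^ 2) (xx q ^ 2 / N ^ 2) +
        (A * ((xx a ^ 2 - xx m ^ 2) / N ^ 2) + B * ((xx b ^ 2 - xx q ^ 2) / N ^ 2) +
      (AA * ((xx a ^ 2 - xx m ^ 2) / N ^ 2) ^ 2 + 2 * AB * (((xx a ^ 2 - xx m ^ 2) / N ^ 2) *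
        ((xx b ^ 2 - xx q ^ 2) / N ^ 2)) + BB * ((xx b ^ 2 - xx q ^ 2) / N ^ 2) ^ 2) / 2)) := by
    unfold vv PP
    field_simp
  rw [e3]
  refine this.trans ?_
  rw [mul_div_assoc, ← div_pow]
  refine mul_le_mul_of_nonneg_left ?_ hC
  refine pow_le_pow_left₀ (by positivity) ?_ 3
  have e4 : 16 * R / N = 8 * R / N + 8 * R / N := by ring
  rw [e4]
  exact add_le_add h1 h2

theorem CC_nonneg {C R : ℝ} (hC : 0 ≤ C) (hR : 1 ≤ R) : 0 ≤ CC C R := by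
  unfold CC
  positivity

/-- consistency in the interior -/
theorem consist {V : ℝ → ℝ → ℝ} {C ρ R N A B AA AB BB : ℝ} {m q : ℕ}
    (hC : 0 ≤ C) (hR : 1 ≤ R) (hN : 1 ≤ N) (hρ : 8 * R / N ≤ ρ)
    (hm : xx m ≤ R * N) (hq : xx q ≤ R * N) (hm1 : 1 ≤ m) (hq1 : 1 ≤ q)
    (hT : Tay V C ρ (xx m ^ 2 / N ^ 2) (xx q ^ 2 / N ^ 2) A B AA AB BB) :
    |KK (vv V N) m q - vv V N m q| ≤ CC C R / N ^ 3 := by
  have hN0 : 0 < N := by linarith
  have hr := KK_abs (rem hC hR hN hρ hm hq hT)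
  rw [KK_sub, KK_PP, K_d1 hm1, K_d1 hq1, K_d2 hm1, K_d2 hq1] at hr
  have hpde := hT.pde
  set w := KK (vv V N) m q with hw
  set v0 := vv V N m q with hv0
  set X := xx m ^ 2 / N ^ 2 with hX
  set Y := xx q ^ 2 / N ^ 2 with hY
  have eX : xx m ^ 2 = X * N ^ 2 := by rw [hX]; field_simp
  have eY : xx q ^ 2 = Y * N ^ 2 := by rw [hY]; field_simp
  have e : A / N ^ 2 * (8 / 3) + B / N ^ 2 * (8 / 3)
        + (AA / (2 * N ^ 4) * (8 * xx m ^ 2 + 110 / 9)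
          + AB / N ^ 4 * (8 / 3 * (8 / 3))
          + BB / (2 * N ^ 4) * (8 * xx q ^ 2 + 110 / 9))
        = (55 / 9 * AA + 64 / 9 * AB + 55 / 9 * BB) / N ^ 4 := by
    rw [eX, eY]
    have : A / N ^ 2 * (8 / 3) + B / N ^ 2 * (8 / 3)
        + (AA / (2 * N ^ 4) * (8 * (X * N ^ 2) + 110 / 9)
          + AB / N ^ 4 * (8 / 3 * (8 / 3))
          + BB / (2 * N ^ 4) * (8 * (Y * N ^ 2) + 110 / 9))
        = 4 / N ^ 2 * (X * AA + 2 / 3 * A + (Y * BB + 2 / 3 * B)) +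
          (55 / 9 * AA + 64 / 9 * AB + 55 / 9 * BB) / N ^ 4 := by
      field_simp
      ring
    rw [this, hpde]
    ring
  rw [e] at hr
  have hs : |(55 / 9 * AA + 64 / 9 * AB + 55 / 9 * BB) / N ^ 4| ≤ 20 * C / N ^ 3 := by
    rw [abs_div, abs_of_pos (show 0 < N ^ 4 by positivity)]
    have h1 : |55 / 9 * AA + 64 / 9 * AB + 55 / 9 * BB| ≤ 20 * C := by
      have a1 := abs_le.1 hT.bAA
      have a2 := abs_le.1 hT.bAB
      have a3 := abs_le.1 hT.bBB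
      rw [abs_le]
      constructor <;> linarith [a1.1, a1.2, a2.1, a2.2, a3.1, a3.2]
    refine (div_le_div_of_nonneg_right h1 (by positivity)).trans ?_
    refine div_le_div_of_nonneg_left (by positivity) (by positivity) ?_
    exact pow_le_pow_right₀ hN (by norm_num)
  have hfin : w - v0 = (w - (v0 + (55 / 9 * AA + 64 / 9 * AB + 55 / 9 * BB) / N ^ 4))
      + (55 / 9 * AA + 64 / 9 * AB + 55 / 9 * BB) / N ^ 4 := by ring
  rw [hfin]
  refine (abs_add_le _ _).trans ((add_le_add hr hs).trans ?_)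
  rw [← add_div]
  refine div_le_div_of_nonneg_right ?_ (by positivity)
  unfold CC
  nlinarith [mul_nonneg hC (sq_nonneg R)]

/-- consistency at `q = 0` (order `N⁻²` only) -/
theorem consist0 {V : ℝ → ℝ → ℝ} {C ρ R N A B AA AB BB : ℝ} {m : ℕ}
    (hC : 0 ≤ C) (hR : 1 ≤ R) (hN : 1 ≤ N) (hρ : 8 * R / N ≤ ρ)
    (hm : xx m ≤ R * N) (hq : xx 0 ≤ R * N) (hm1 : 1 ≤ m)
    (hT : Tay V C ρ (xx m ^ 2 / N ^ 2) (xx 0 ^ 2 / N ^ 2) A B AA AB BB) :
    |KK (vv V N) m 0 - vv V N m 0| ≤ CC C R / N ^ 2 := by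
  have hN0 : 0 < N := by linarith
  have hr := KK_abs (rem hC hR hN hρ hm hq hT)
  rw [KK_sub, KK_PP, K_d1 hm1, K_d1_zero, K_d2 hm1, K_d2_zero] at hr
  set w := KK (vv V N) m 0 with hw
  set v0 := vv V N m 0 with hv0
  set D := A / N ^ 2 * (8 / 3) + B / N ^ 2 * (80 / 27)
        + (AA / (2 * N ^ 4) * (8 * xx m ^ 2 + 110 / 9)
          + AB / N ^ 4 * (8 / 3 * (80 / 27))
          + BB / (2 * N ^ 4) * (800 / 27)) with hD
  have hx2 : xx m ^ 2 ≤ R ^ 2 * N ^ 2 := by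
    rw [← mul_pow]
    exact pow_le_pow_left₀ (xx_pos m).le hm 2
  have b : ∀ {t c d : ℝ}, |t| ≤ C → 0 ≤ d → d ≤ c → |t * d| ≤ c * C := by
    intro t c d h1 h2 h3
    rw [abs_mul, abs_of_nonneg h2]
    nlinarith [abs_nonneg t]
  have hDe : D = (A * (8 / 3) + B * (80 / 27)
        + (AA * ((8 * xx m ^ 2 + 110 / 9) / (2 * N ^ 2))
          + AB * (8 / 3 * (80 / 27) / N ^ 2)
          + BB * (800 / 27 / (2 * N ^ 2)))) / N ^ 2 := by
    rw [hD]; field_simp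
  have i2 : (1 : ℝ) ≤ N ^ 2 := one_le_pow₀ hN
  have hs : |D| ≤ (4 * R ^ 2 + 100) * C / N ^ 2 := by
    rw [hDe, abs_div, abs_of_pos (show 0 < N ^ 2 by positivity)]
    refine div_le_div_of_nonneg_right ?_ (by positivity)
    have a1 := b (c := 8 / 3) (d := 8 / 3) hT.bA (by norm_num) le_rfl
    have a2 := b (c := 80 / 27) (d := 80 / 27) hT.bB (by norm_num) le_rfl
    have a3 := b (c := 4 * R ^ 2 + 7) (d := (8 * xx m ^ 2 + 110 / 9) / (2 * N ^ 2)) hT.bAA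
      (by positivity) (by
        rw [div_le_iff₀ (by positivity)]
        nlinarith)
    have a4 := b (c := 8) (d := 8 / 3 * (80 / 27) / N ^ 2) hT.bAB (by positivity) (by
        rw [div_le_iff₀ (by positivity)]
        nlinarith)
    have a5 := b (c := 15) (d := 800 / 27 / (2 * N ^ 2)) hT.bBB (by positivity) (by
        rw [div_le_iff₀ (by positivity)]
        nlinarith)
    rw [abs_le] at a1 a2 a3 a4 a5 ⊢
    constructor <;> nlinarith [a1.1, a1.2, a2.1, a2.2, a3.1, a3.2, a4.1, a4.2, a5.1, a5.2]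
  have hfin : w - v0 = (w - (v0 + D)) + D := by ring
  rw [hfin]
  refine (abs_add_le _ _).trans ?_
  have hr2 : |w - (v0 + D)| ≤ C * (16 * R) ^ 3 / N ^ 2 := by
    refine hr.trans ?_
    refine div_le_div_of_nonneg_left (by positivity) (by positivity) ?_
    exact pow_le_pow_right₀ hN (by norm_num)
  refine (add_le_add hr2 hs).trans ?_
  rw [← add_div]
  refine div_le_div_of_nonneg_right ?_ (by positivity)
  unfold CC
  nlinarith

end JL31
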