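import Pool.Agent.Helper31.J.MaxPr
import Pool.Agent.Helper60.J.Chain

/-!
# The limit theorem for functions in the class `Har` (helper31)
-/

namespace JL31

open Filter Topology

/-- what is used about the limit function -/
structure VHyp (V : ℝ → ℝ → ℝ) : Prop where
  nonneg : ∀ X Y : ℝ, 0 ≤ X → 0 ≤ Y → 0 ≤ V X Y
  le_one : ∀ X Y : ℝ, 0 ≤ X → 0 ≤ Y → V X Y ≤ 1
  left : ∀ ε : ℝ, 0 < ε → ∃ η : ℝ, 0 < η ∧ ∀ X Y : ℝ, 0 ≤ X → 0 ≤ Y → X ≤ η * (1 + Y) →
    V X Y ≤ ε
  right : ∀ ε : ℝ, 0 < ε → ∃ η : ℝ, 0 < η ∧ ∀ X Y : ℝ, 1 - η ≤ X → 0 ≤ X → 0 ≤ Y → Y ≤ η →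
    1 - ε ≤ V X Y
  tay : ∀ η Λ : ℝ, 0 < η → ∃ C ρ : ℝ, 0 ≤ C ∧ 0 < ρ ∧ ∀ X Y : ℝ, η ≤ X → X ≤ Λ → 0 ≤ Y →
    Y ≤ Λ → (η ≤ Y ∨ X ≤ 1 - η) → ∃ A B AA AB BB : ℝ, Tay V C ρ X Y A B AA AB BB

theorem K_eq (g : ℕ → ℝ) (m : ℕ) : IP.Junc.KK g m = K g m := rfl

theorem KK_eq (f : ℕ → ℕ → ℝ) (m q : ℕ) :
    IP.Junc.KK (fun m' => IP.Junc.KK (fun q' => f m' q') q) m = KK f m q := rfl

theorem bound {V : ℝ → ℝ → ℝ} {u : ℕ → ℕ → ℕ → ℝ} (hV : VHyp V) (hu : IP.Junc.Har u)
    {ε : ℝ} (hε : 0 < ε) (_hε1 : ε ≤ 1) {η' R' : ℝ} (hη' : 0 < η') :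
    ∃ C : ℝ, ∃ N0 : ℕ, ∀ c m q : ℕ, N0 ≤ c → η' * c < m → η' * c < q →
      xx m + 2 ≤ R' * xx c → xx q + 2 ≤ R' * xx c →
      |u m c q - vv V (xx c) m q| ≤ ε + ε * Real.sqrt (xx m / xx c) + C / xx c := by
  obtain ⟨ηL, hηL, NL, hL⟩ := hu.left ε hε
  obtain ⟨ηR, hηR, NR, hRt⟩ := hu.right ε hε
  obtain ⟨η1, hη1, hVl⟩ := hV.left ε hε
  obtain ⟨η2, hη2, hVr⟩ := hV.right ε hε
  -- `η`
  obtain ⟨η, hη, hηη', hηηL, hηηR, hη4, hηη1, hηη2⟩ :
      ∃ η : ℝ, 0 < η ∧ η ≤ η' ∧ η ≤ ηL ∧ η ≤ ηR ∧ η ≤ 1 / 4 ∧ η ≤ η1 ∧ 2 * η ≤ η2 := by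
    refine ⟨min η' (min ηL (min ηR (min (1 / 4) (min η1 (η2 / 2))))), by positivity, ?_, ?_, ?_,
      ?_, ?_, ?_⟩
    · exact min_le_left _ _
    · exact (min_le_right _ _).trans (min_le_left _ _)
    · exact (min_le_right _ _).trans ((min_le_right _ _).trans (min_le_left _ _))
    · exact (min_le_right _ _).trans ((min_le_right _ _).trans ((min_le_right _ _).trans
        (min_le_left _ _)))
    · exact (min_le_right _ _).trans ((min_le_right _ _).trans ((min_le_right _ _).trans
        ((min_le_right _ _).trans (min_le_left _ _))))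
    · have : min η' (min ηL (min ηR (min (1 / 4) (min η1 (η2 / 2))))) ≤ η2 / 2 :=
        (min_le_right _ _).trans ((min_le_right _ _).trans ((min_le_right _ _).trans
        ((min_le_right _ _).trans (min_le_right _ _))))
      linarith
  -- `R`
  obtain ⟨R, hRR', hR8, hRa, hRb, hRc⟩ :
      ∃ R : ℝ, R' ≤ R ∧ 8 ≤ R ∧ 2 / ε ^ 2 ≤ R ∧ 2 / (ε ^ 2 * ηL) ≤ R ∧ 4 / (ε ^ 4 * η1) ≤ R := by
    refine ⟨max R' (max 8 (max (2 / ε ^ 2) (max (2 / (ε ^ 2 * ηL)) (4 / (ε ^ 4 * η1))))),
      ?_, ?_, ?_, ?_, ?_⟩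
    · exact le_max_left _ _
    · exact (le_max_left _ _).trans (le_max_right _ _)
    · exact (le_max_left _ _).trans ((le_max_right _ _).trans (le_max_right _ _))
    · exact (le_max_left _ _).trans ((le_max_right _ _).trans ((le_max_right _ _).trans
        (le_max_right _ _)))
    · exact (le_max_right _ _).trans ((le_max_right _ _).trans ((le_max_right _ _).trans
        (le_max_right _ _)))
  obtain ⟨C0, ρ, hC0, hρ, hT⟩ := hV.tay (η ^ 2) (R ^ 2) (by positivity)
  have hR0 : 0 < R := by linarith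
  have hCC : 0 ≤ CC C0 R := CC_nonneg hC0 (by linarith)
  refine ⟨(CC C0 R + 1) * (R ^ 2 + 2 * R), max (max NL NR) ⌈max (8 * R / ρ) (max 3 (2 / η))⌉₊,
    fun c m q hc hm hq hmR hqR => ?_⟩
  have hcL : NL ≤ c := (le_max_left _ _).trans ((le_max_left _ _).trans hc)
  have hcR : NR ≤ c := (le_max_right _ _).trans ((le_max_left _ _).trans hc)
  have hcr : max (8 * R / ρ) (max 3 (2 / η)) ≤ (c : ℝ) :=
    (Nat.le_ceil _).trans (by exact_mod_cast (le_max_right _ _).trans hc)
  have hc1 : 8 * R / ρ ≤ c := (le_max_left _ _).trans hcr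
  have hc2 : (3 : ℝ) ≤ c := (le_max_left _ _).trans ((le_max_right _ _).trans hcr)
  have hc3 : 2 / η ≤ c := (le_max_right _ _).trans ((le_max_right _ _).trans hcr)
  set N := xx c with hN
  have hNc : N = 2 * c + 3 / 2 := rfl
  have hN3 : 3 ≤ N := by linarith
  have hN0 : 0 < N := by linarith
  have hcN : (c : ℝ) ≤ N := by linarith
  have hηc : 2 ≤ η * c := by
    rw [div_le_iff₀ hη] at hc3
    linarith
  have hρN : 8 * R / N ≤ ρ := by
    rw [div_le_iff₀ hN0]
    rw [div_le_iff₀ hρ] at hc1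
    nlinarith
  have hsqrt : ∀ x : ℝ, 0 ≤ x → ε / Real.sqrt N * Real.sqrt x = ε * Real.sqrt (x / N) := by
    intro x hx
    rw [Real.sqrt_div hx]
    ring
  have key := compare (u := fun m q => u m c q) (v := vv V N)
    (G := fun m q => xx m + 2 ≤ R * N ∧ xx q + 2 ≤ R * N ∧ η * c < m ∧
      (η * c < q ∨ (m : ℝ) < (1 - η) * c))
    (B := ⌈R * N⌉₊) (ε := ε) (δ := ε / Real.sqrt N) (C := CC C0 R + 1) (N := N) (R := R)
    (by linarith) hN0 (by positivity)
    ?_ ?_ ?_ ?_ ?_ ?_ ?_ m q ?_
  · rw [hsqrt _ (xx_pos m).le] at key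
    exact key
  · -- hB
    rintro m q ⟨h1, h2, -, -⟩
    have b1 : (m : ℝ) ≤ ⌈R * N⌉₊ := by
      refine le_trans ?_ (Nat.le_ceil _)
      unfold xx at h1
      have : (0 : ℝ) ≤ m := Nat.cast_nonneg m
      linarith
    have b2 : (q : ℝ) ≤ ⌈R * N⌉₊ := by
      refine le_trans ?_ (Nat.le_ceil _)
      unfold xx at h2
      have : (0 : ℝ) ≤ q := Nat.cast_nonneg q
      linarith
    exact ⟨by exact_mod_cast b1, by exact_mod_cast b2⟩
  · -- hG1
    rintro m q ⟨-, -, h3, -⟩
    have : (0 : ℝ) < m := by linarith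
    exact_mod_cast this
  · -- hGR
    rintro m q ⟨h1, h2, -, -⟩
    exact ⟨h1, h2⟩
  · -- hu
    rintro m q ⟨-, -, h3, h4⟩
    have h1 : (0 : ℝ) < m := by linarith
    refine (KK_eq _ m q).symm.trans (hu.har m c q (by exact_mod_cast h1) ?_)
    rcases h4 with h4 | h4
    · left
      have : (0 : ℝ) < q := by linarith
      exact_mod_cast this
    · right
      have : (m : ℝ) < c := by nlinarith
      exact_mod_cast this
  · -- hv
    rintro m q ⟨h1, h2, h3, h4⟩ hq1
    have hm1 : (0 : ℝ) < m := by linarith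
    obtain ⟨A, B, AA, AB, BB, hTT⟩ := hT (xx m ^ 2 / N ^ 2) (xx q ^ 2 / N ^ 2)
      (by
        rw [le_div_iff₀ (by positivity), ← mul_pow]
        refine pow_le_pow_left₀ (by positivity) ?_ 2
        unfold xx; rw [hNc]; nlinarith)
      (by
        rw [div_le_iff₀ (by positivity), ← mul_pow]
        exact pow_le_pow_left₀ (xx_pos m).le (by linarith) 2)
      (by positivity)
      (by
        rw [div_le_iff₀ (by positivity), ← mul_pow]
        exact pow_le_pow_left₀ (xx_pos q).le (by linarith) 2)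
      (by
        rcases h4 with h4 | h4
        · left
          rw [le_div_iff₀ (by positivity), ← mul_pow]
          refine pow_le_pow_left₀ (by positivity) ?_ 2
          unfold xx; rw [hNc]; nlinarith
        · right
          rw [div_le_iff₀ (by positivity)]
          have e1 : xx m ≤ (1 - η / 2) * N := by
            unfold xx; rw [hNc]; nlinarith
          have e2 : xx m ^ 2 ≤ ((1 - η / 2) * N) ^ 2 :=
            pow_le_pow_left₀ (xx_pos m).le e1 2
          rw [mul_pow] at e2
          refine e2.trans (mul_le_mul_of_nonneg_right ?_ (by positivity))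
          nlinarith)
    refine (consist hC0 (by linarith) (by linarith) hρN (by linarith) (by linarith)
      (by exact_mod_cast hm1) hq1 hTT).trans ?_
    exact div_le_div_of_nonneg_right (by linarith) (by positivity)
  · -- hv0
    rintro m ⟨h1, h2, h3, h4⟩
    have hm1 : (0 : ℝ) < m := by linarith
    have h4' : (m : ℝ) < (1 - η) * c := by
      rcases h4 with h4 | h4
      · exfalso
        push_cast at h4
        linarith
      · exact h4
    obtain ⟨A, B, AA, AB, BB, hTT⟩ := hT (xx m ^ 2 / N ^ 2) (xx 0 ^ 2 / N ^ 2)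
      (by
        rw [le_div_iff₀ (by positivity), ← mul_pow]
        refine pow_le_pow_left₀ (by positivity) ?_ 2
        unfold xx; rw [hNc]; nlinarith)
      (by
        rw [div_le_iff₀ (by positivity), ← mul_pow]
        exact pow_le_pow_left₀ (xx_pos m).le (by linarith) 2)
      (by positivity)
      (by
        rw [div_le_iff₀ (by positivity), ← mul_pow]
        exact pow_le_pow_left₀ (xx_pos 0).le (by linarith) 2)
      (by
        right
        rw [div_le_iff₀ (by positivity)]
        have e1 : xx m ≤ (1 - η / 2) * N := by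
          unfold xx; rw [hNc]; nlinarith
        have e2 : xx m ^ 2 ≤ ((1 - η / 2) * N) ^ 2 :=
          pow_le_pow_left₀ (xx_pos m).le e1 2
        rw [mul_pow] at e2
        refine e2.trans (mul_le_mul_of_nonneg_right ?_ (by positivity))
        nlinarith)
    refine (consist0 hC0 (by linarith) (by linarith) hρN (by linarith) (by linarith)
      (by exact_mod_cast hm1) hTT).trans ?_
    exact div_le_div_of_nonneg_right (by linarith) (by positivity)
  · -- hb
    rintro - - m q - - hG'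
    rw [hsqrt _ (xx_pos m).le]
    have hu0 := hu.nonneg m c q
    have hu1 := hu.le_one m c q
    have hX0 : 0 ≤ xx m ^ 2 / N ^ 2 := by positivity
    have hY0 : 0 ≤ xx q ^ 2 / N ^ 2 := by positivity
    have hv0 : 0 ≤ vv V N m q := hV.nonneg _ _ hX0 hY0
    have hv1 : vv V N m q ≤ 1 := hV.le_one _ _ hX0 hY0
    have hs0 : 0 ≤ ε * Real.sqrt (xx m / N) := by positivity
    have hmpos : (0 : ℝ) ≤ m := Nat.cast_nonneg m
    have hqpos : (0 : ℝ) ≤ q := Nat.cast_nonneg q
    have far : 1 / ε ^ 2 ≤ xx m / N →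
        |u m c q - vv V N m q| ≤ ε + ε * Real.sqrt (xx m / N) := by
      intro h
      have h1 : 1 / ε ≤ Real.sqrt (xx m / N) := by
        apply Real.le_sqrt_of_sq_le
        rw [div_pow, one_pow]
        exact h
      have h2 : 1 ≤ ε * Real.sqrt (xx m / N) := by
        calc (1 : ℝ) = ε * (1 / ε) := by field_simp
          _ ≤ _ := mul_le_mul_of_nonneg_left h1 hε.le
      rw [abs_le]; constructor <;> linarith
    have small : u m c q ≤ ε → vv V N m q ≤ ε →
        |u m c q - vv V N m q| ≤ ε + ε * Real.sqrt (xx m / N) := by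
      intro h1 h2
      rw [abs_le]; constructor <;> linarith
    have hRN : 24 ≤ R * N := by nlinarith
    by_cases h1 : R * N < xx m + 2
    · apply far
      rw [le_div_iff₀ hN0]
      have e1 : R * N / 2 ≤ xx m := by linarith
      refine le_trans ?_ e1
      have : 1 / ε ^ 2 * 2 ≤ R := by
        calc 1 / ε ^ 2 * 2 = 2 / ε ^ 2 := by ring
          _ ≤ R := hRa
      nlinarith
    by_cases h2 : R * N < xx q + 2
    · by_cases h3 : 1 / ε ^ 2 ≤ xx m / N
      · exact far h3
      · push Not at h3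
        have h3' := h3
        rw [div_lt_iff₀ hN0] at h3
        have hq4 : R * N / 4 ≤ q := by
          unfold xx at h2
          linarith
        have hxq : R * N / 2 ≤ xx q := by linarith
        apply small
        · apply hL m c q hcL
          right
          constructor
          · have : (c : ℝ) ≤ q := by nlinarith
            exact_mod_cast this
          · have e1 : (m : ℝ) ≤ xx m / 2 := by unfold xx; linarith
            have e2 : 1 / ε ^ 2 * N / 2 ≤ ηL * (R * N / 4) := by
              rw [div_le_iff₀ (by positivity)] at hRb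
              have : 1 / ε ^ 2 ≤ ηL * R / 2 := by
                rw [div_le_iff₀ (by positivity)]
                linarith
              nlinarith
            calc (m : ℝ) ≤ xx m / 2 := e1
              _ ≤ 1 / ε ^ 2 * N / 2 := by linarith
              _ ≤ ηL * (R * N / 4) := e2
              _ ≤ ηL * q := mul_le_mul_of_nonneg_left hq4 hηL.le
        · apply hVl _ _ hX0 hY0
          have e1 : xx m ^ 2 / N ^ 2 ≤ 1 / ε ^ 4 := by
            rw [← div_pow]
            calc (xx m / N) ^ 2 ≤ (1 / ε ^ 2) ^ 2 :=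
                  pow_le_pow_left₀ (div_nonneg (xx_pos m).le hN0.le) h3'.le 2
              _ = 1 / ε ^ 4 := by rw [div_pow]; ring
          have e2 : R ^ 2 / 4 ≤ xx q ^ 2 / N ^ 2 := by
            rw [le_div_iff₀ (by positivity)]
            calc R ^ 2 / 4 * N ^ 2 = (R * N / 2) ^ 2 := by ring
              _ ≤ xx q ^ 2 := pow_le_pow_left₀ (by positivity) hxq 2
          have e3 : 1 / ε ^ 4 ≤ η1 * (R ^ 2 / 4) := by
            rw [div_le_iff₀ (by positivity)] at hRc ⊢
            have : R ≤ R ^ 2 := by nlinarith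
            have h5 : R * (ε ^ 4 * η1) ≤ R ^ 2 * (ε ^ 4 * η1) :=
              mul_le_mul_of_nonneg_right this (by positivity)
            nlinarith
          calc xx m ^ 2 / N ^ 2 ≤ 1 / ε ^ 4 := e1
            _ ≤ η1 * (R ^ 2 / 4) := e3
            _ ≤ η1 * (xx q ^ 2 / N ^ 2) := mul_le_mul_of_nonneg_left e2 hη1.le
            _ ≤ η1 * (1 + xx q ^ 2 / N ^ 2) := mul_le_mul_of_nonneg_left (by linarith) hη1.le
    push Not at h1 h2
    by_cases h3 : η * c < m
    · have h4 : ¬ (η * c < q ∨ (m : ℝ) < (1 - η) * c) := fun h => hG' ⟨h1, h2, h3, h⟩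
      push Not at h4
      have f1 : 1 - ε ≤ u m c q := by
        apply hRt m c q hcR
        · refine h4.1.trans (mul_le_mul_of_nonneg_right hηηR (Nat.cast_nonneg c))
        · refine le_trans ?_ h4.2
          exact mul_le_mul_of_nonneg_right (by linarith) (Nat.cast_nonneg c)
      have f2 : 1 - ε ≤ vv V N m q := by
        apply hVr _ _ _ hX0 hY0
        · have e1 : xx q ≤ 2 * η * N := by
            unfold xx; rw [hNc]; nlinarith
          rw [div_le_iff₀ (by positivity)]
          calc xx q ^ 2 ≤ (2 * η * N) ^ 2 := pow_le_pow_left₀ (xx_pos q).le e1 2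
            _ = 4 * η ^ 2 * N ^ 2 := by ring
            _ ≤ η2 * N ^ 2 := by
              apply mul_le_mul_of_nonneg_right _ (by positivity)
              nlinarith
        · have e1 : (1 - η) * N ≤ xx m := by
            unfold xx; rw [hNc]; nlinarith
          rw [le_div_iff₀ (by positivity)]
          have e2 : ((1 - η) * N) ^ 2 ≤ xx m ^ 2 :=
            pow_le_pow_left₀ (mul_nonneg (by linarith) hN0.le) e1 2
          refine le_trans ?_ e2
          rw [mul_pow]
          apply mul_le_mul_of_nonneg_right _ (by positivity)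
          nlinarith
      rw [abs_le]; constructor <;> linarith
    · push Not at h3
      apply small
      · apply hL m c q hcL
        left
        exact h3.trans (mul_le_mul_of_nonneg_right hηηL (Nat.cast_nonneg c))
      · apply hVl _ _ hX0 hY0
        have e1 : xx m ≤ 2 * η * N := by
          unfold xx; rw [hNc]; nlinarith
        have e2 : xx m ^ 2 / N ^ 2 ≤ η1 := by
          rw [div_le_iff₀ (by positivity)]
          calc xx m ^ 2 ≤ (2 * η * N) ^ 2 := pow_le_pow_left₀ (xx_pos m).le e1 2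
            _ = 4 * η ^ 2 * N ^ 2 := by ring
            _ ≤ η1 * N ^ 2 := by
              apply mul_le_mul_of_nonneg_right _ (by positivity)
              nlinarith
        calc xx m ^ 2 / N ^ 2 ≤ η1 * 1 := by linarith
          _ ≤ η1 * (1 + xx q ^ 2 / N ^ 2) := mul_le_mul_of_nonneg_left (by linarith) hη1.le
  · -- the point is in `G`
    refine ⟨hmR.trans (mul_le_mul_of_nonneg_right hRR' hN0.le),
      hqR.trans (mul_le_mul_of_nonneg_right hRR' hN0.le), ?_, Or.inl ?_⟩
    · exact lt_of_le_of_lt (mul_le_mul_of_nonneg_right hηη' (Nat.cast_nonneg c)) hm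
    · exact lt_of_le_of_lt (mul_le_mul_of_nonneg_right hηη' (Nat.cast_nonneg c)) hq

theorem xx_div_tendsto {a : ℝ} {m c : ℕ → ℕ} (hc : Tendsto c atTop atTop)
    (hm : Tendsto (fun k => (m k : ℝ) / c k) atTop (𝓝 a)) :
    Tendsto (fun k => xx (m k) / xx (c k)) atTop (𝓝 a) := by
  have hcr : Tendsto (fun k => (c k : ℝ)) atTop atTop := tendsto_natCast_atTop_atTop.comp hc
  have h0 : Tendsto (fun k => (3 / 2 : ℝ) / c k) atTop (𝓝 0) := hcr.const_div_atTop _
  have h1 : Tendsto (fun k => (2 * ((m k : ℝ) / c k) + (3 / 2 : ℝ) / c k) /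
      (2 + (3 / 2 : ℝ) / c k)) atTop (𝓝 ((2 * a + 0) / (2 + 0))) :=
    ((hm.const_mul 2).add h0).div (tendsto_const_nhds.add h0) (by norm_num)
  have e : (2 * a + 0) / (2 + 0) = a := by ring
  rw [e] at h1
  refine h1.congr' ?_
  filter_upwards [hcr.eventually_gt_atTop 0] with k hk
  unfold xx
  field_simp

theorem lim {V : ℝ → ℝ → ℝ} {u : ℕ → ℕ → ℕ → ℝ} (hV : VHyp V) (hu : IP.Junc.Har u)
    {a b : ℝ} (ha : 0 < a) (hb : 0 < b)
    (hcont : ContinuousAt (fun p : ℝ × ℝ => V p.1 p.2) (a ^ 2, b ^ 2))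
    (m c q : ℕ → ℕ) (hc : Tendsto c atTop atTop)
    (hm : Tendsto (fun k => (m k : ℝ) / c k) atTop (𝓝 a))
    (hq : Tendsto (fun k => (q k : ℝ) / c k) atTop (𝓝 b)) :
    Tendsto (fun k => u (m k) (c k) (q k)) atTop (𝓝 (V (a ^ 2) (b ^ 2))) := by
  have hcr : Tendsto (fun k => (c k : ℝ)) atTop atTop := tendsto_natCast_atTop_atTop.comp hc
  have hxc : Tendsto (fun k => xx (c k)) atTop atTop := by
    refine tendsto_atTop_mono (fun k => ?_) hcr
    unfold xx
    have : (0 : ℝ) ≤ c k := Nat.cast_nonneg _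
    linarith
  have hxm := xx_div_tendsto hc hm
  have hxq := xx_div_tendsto hc hq
  have hv : Tendsto (fun k => vv V (xx (c k)) (m k) (q k)) atTop (𝓝 (V (a ^ 2) (b ^ 2))) := by
    have h1 : Tendsto (fun k => ((xx (m k) / xx (c k)) ^ 2, (xx (q k) / xx (c k)) ^ 2)) atTop
        (𝓝 (a ^ 2, b ^ 2)) := (hxm.pow 2).prodMk_nhds (hxq.pow 2)
    have h2 := hcont.tendsto.comp h1
    refine h2.congr fun k => ?_
    simp only [Function.comp, vv, div_pow]
  have hd : Tendsto (fun k => u (m k) (c k) (q k) - vv V (xx (c k)) (m k) (q k)) atTop (𝓝 0) := by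
    rw [Metric.tendsto_atTop]
    have : ∀ e : ℝ, 0 < e → ∀ᶠ k in atTop,
        |u (m k) (c k) (q k) - vv V (xx (c k)) (m k) (q k)| < e := by
      intro e he
      obtain ⟨ε, hε, hε1, hεe⟩ : ∃ ε : ℝ, 0 < ε ∧ ε ≤ 1 ∧ ε + ε * Real.sqrt a < e := by
        refine ⟨min 1 (e / (2 * (1 + Real.sqrt a))), by positivity, min_le_left _ _, ?_⟩
        have h1 : min 1 (e / (2 * (1 + Real.sqrt a))) ≤ e / (2 * (1 + Real.sqrt a)) :=
          min_le_right _ _
        have h2 : e / (2 * (1 + Real.sqrt a)) * (1 + Real.sqrt a) = e / 2 := by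
          field_simp
        have h3 : 0 ≤ 1 + Real.sqrt a := by positivity
        nlinarith [mul_le_mul_of_nonneg_right h1 h3]
      obtain ⟨C, N0, hC⟩ := bound hV hu hε hε1 (η' := min a b / 2)
        (R' := max a b + 1) (by positivity)
      have t1 : Tendsto (fun k => ε + ε * Real.sqrt (xx (m k) / xx (c k)) + C / xx (c k)) atTop
          (𝓝 (ε + ε * Real.sqrt a + 0)) :=
        (tendsto_const_nhds.add (((Real.continuous_sqrt.tendsto a).comp hxm).const_mul ε)).add
          (hxc.const_div_atTop C)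
      rw [add_zero] at t1
      have hab1 : min a b / 2 < a := by
        have := min_le_left a b
        linarith
      have hab2 : min a b / 2 < b := by
        have := min_le_right a b
        linarith
      have hab3 : a < max a b + 1 / 2 := by
        have := le_max_left a b
        linarith
      have hab4 : b < max a b + 1 / 2 := by
        have := le_max_right a b
        linarith
      filter_upwards [t1.eventually_lt_const hεe, hc.eventually_ge_atTop N0,
        hm.eventually_const_lt hab1, hq.eventually_const_lt hab2,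
        hxm.eventually_lt_const hab3, hxq.eventually_lt_const hab4,
        hcr.eventually_gt_atTop 0, hxc.eventually_ge_atTop 4] with k k1 k2 k3 k4 k5 k6 k7 k8
      refine lt_of_le_of_lt (hC (c k) (m k) (q k) k2 ?_ ?_ ?_ ?_) k1
      · rwa [lt_div_iff₀ k7] at k3
      · rwa [lt_div_iff₀ k7] at k4
      · rw [div_lt_iff₀ (xx_pos _)] at k5
        nlinarith
      · rw [div_lt_iff₀ (xx_pos _)] at k6
        nlinarith
    intro e he
    obtain ⟨n, hn⟩ := eventually_atTop.1 (this e he)
    exact ⟨n, fun k hk => by rw [Real.dist_eq, sub_zero]; exact hn k hk⟩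
  have := hd.add hv
  simp only [sub_add_cancel, zero_add] at this
  exact this

end JL31
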