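import Pool.Agent.Helper31.J.Consist

/-!
# Discrete maximum principle for the product chain (helper31)
-/

namespace JL31

theorem maxpr {E : ℕ → ℕ → ℝ} {G : ℕ → ℕ → Prop} {B : ℕ}
    (hB : ∀ m q, G m q → m ≤ B ∧ q ≤ B)
    (hE : ∀ m q, G m q → E m q < KK E m q)
    (hb : ∀ m q m' q', G m q → nb m q m' q' → ¬ G m' q' → E m' q' ≤ 0) :
    ∀ m q, G m q → E m q ≤ 0 := by
  classical
  intro m q hmq
  by_contra hpos
  push Not at hpos
  set S : Finset (ℕ × ℕ) :=
    (Finset.range (B + 1) ×ˢ Finset.range (B + 1)).filter (fun z => G z.1 z.2) with hS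
  have hmem : ∀ a b, G a b → (a, b) ∈ S := by
    intro a b h
    have := hB a b h
    simp only [hS, Finset.mem_filter, Finset.mem_product, Finset.mem_range]
    exact ⟨⟨by omega, by omega⟩, h⟩
  obtain ⟨z, hz, hmax⟩ := Finset.exists_max_image S (fun z => E z.1 z.2) ⟨(m, q), hmem m q hmq⟩
  have hGz : G z.1 z.2 := (Finset.mem_filter.1 hz).2
  have hz0 : 0 < E z.1 z.2 := lt_of_lt_of_le hpos (hmax (m, q) (hmem m q hmq))
  have h1 : KK E z.1 z.2 ≤ E z.1 z.2 := by
    apply KK_le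
    intro a b hn
    by_cases hab : G a b
    · exact hmax (a, b) (hmem a b hab)
    · exact (hb _ _ _ _ hGz hn hab).trans hz0.le
  exact absurd (hE _ _ hGz) (not_lt.2 h1)

/-- one-sided comparison -/
theorem compare1 {w ev : ℕ → ℕ → ℝ} {G : ℕ → ℕ → Prop} {B : ℕ} {ε δ C N R : ℝ}
    (hC : 0 < C) (hN : 0 < N) (hδ : 0 ≤ δ)
    (hB : ∀ m q, G m q → m ≤ B ∧ q ≤ B)
    (hG1 : ∀ m q, G m q → 1 ≤ m)
    (hGR : ∀ m q, G m q → xx m + 2 ≤ R * N ∧ xx q + 2 ≤ R * N)
    (hw : ∀ m q, G m q → w m q - ev m q ≤ KK w m q)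
    (hv : ∀ m q, G m q → 1 ≤ q → ev m q ≤ C / N ^ 3)
    (hv0 : ∀ m, G m 0 → ev m 0 ≤ C / N ^ 2)
    (hb : ∀ m q m' q', G m q → nb m q m' q' → ¬ G m' q' →
      w m' q' ≤ ε + δ * Real.sqrt (xx m')) :
    ∀ m q, G m q → w m q ≤ ε + δ * Real.sqrt (xx m) + C * (R ^ 2 + 2 * R) / N := by
  -- the barrier
  set E : ℕ → ℕ → ℝ := fun m q => w m q - (ε + δ * Real.sqrt (xx m)
    + C / (2 * N ^ 3) * (R ^ 2 * N ^ 2 - xx m ^ 2) + 2 * C / N ^ 2 * (R * N - xx q)) with hE
  have hKE : ∀ m q, KK E m q = KK w m q - (ε + δ * K (fun a => Real.sqrt (xx a)) m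
    + C / (2 * N ^ 3) * (R ^ 2 * N ^ 2 - K (fun a => xx a ^ 2) m)
    + 2 * C / N ^ 2 * (R * N - K xx q)) := by
    intro m q
    rw [hE]
    unfold KK K
    ring
  have nbx : ∀ {m a : ℕ}, (a = m - 1 ∨ a = m ∨ a = m + 1) → xx a ≤ xx m + 2 := by
    intro m a h
    rcases h with rfl | rfl | rfl
    · have := xx_pred_le m; linarith
    · linarith
    · rw [xx_succ]
  have hmain : ∀ m q, G m q → E m q ≤ 0 := by
    refine maxpr hB ?_ ?_
    · intro m q hG
      rw [hKE, K_sq (hG1 m q hG)]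
      have h1 := K_sqrt_le (hG1 m q hG)
      have h2 := hw m q hG
      have h3 : δ * K (fun a => Real.sqrt (xx a)) m ≤ δ * Real.sqrt (xx m) :=
        mul_le_mul_of_nonneg_left h1 hδ
      have p3 : 0 < C / N ^ 3 := by positivity
      have p2 : 0 < C / N ^ 2 := by positivity
      have e3 : C / (2 * N ^ 3) * (R ^ 2 * N ^ 2 - (xx m ^ 2 + 8 / 3)) =
        C / (2 * N ^ 3) * (R ^ 2 * N ^ 2 - xx m ^ 2) - 4 / 3 * (C / N ^ 3) := by
        field_simp
        ring
      rw [e3]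
      simp only [hE]
      rcases Nat.eq_zero_or_pos q with rfl | hq
      · rw [K_x_zero]
        have h4 := hv0 m hG
        have e4 : 2 * C / N ^ 2 * (R * N - (xx 0 + 16 / 27)) =
          2 * C / N ^ 2 * (R * N - xx 0) - 32 / 27 * (C / N ^ 2) := by
          field_simp
          ring
        rw [e4]
        linarith
      · have h4 := hv m q hG hq
        have h5 := K_x_ge q
        have h6 : 2 * C / N ^ 2 * (R * N - K xx q) ≤ 2 * C / N ^ 2 * (R * N - xx q) :=
          mul_le_mul_of_nonneg_left (by linarith) (by positivity)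
        linarith
    · intro m q m' q' hG hn hG'
      have h1 := hb m q m' q' hG hn hG'
      have hR := hGR m q hG
      have h2 : xx m' ≤ R * N := (nbx hn.1).trans hR.1
      have h3 : xx q' ≤ R * N := (nbx hn.2).trans hR.2
      have h4 : xx m' ^ 2 ≤ R ^ 2 * N ^ 2 := by
        rw [← mul_pow]; exact pow_le_pow_left₀ (xx_pos m').le h2 2
      have h5 : 0 ≤ C / (2 * N ^ 3) * (R ^ 2 * N ^ 2 - xx m' ^ 2) :=
        mul_nonneg (by positivity) (by linarith)
      have h6 : 0 ≤ 2 * C / N ^ 2 * (R * N - xx q') :=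
        mul_nonneg (by positivity) (by linarith)
      simp only [hE]
      linarith
  intro m q hG
  have h := hmain m q hG
  simp only [hE] at h
  have hx : 0 ≤ C / (2 * N ^ 3) * xx m ^ 2 := by positivity
  have hy : 0 ≤ 2 * C / N ^ 2 * xx q := by
    have := xx_pos q
    positivity
  have e : C / (2 * N ^ 3) * (R ^ 2 * N ^ 2) + 2 * C / N ^ 2 * (R * N) =
      C * (R ^ 2 / 2 + 2 * R) / N := by
    field_simp
  have e2 : C * (R ^ 2 / 2 + 2 * R) / N ≤ C * (R ^ 2 + 2 * R) / N := by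
    apply div_le_div_of_nonneg_right _ hN.le
    apply mul_le_mul_of_nonneg_left _ hC.le
    nlinarith [sq_nonneg R]
  nlinarith

/-- two-sided comparison -/
theorem compare {u v : ℕ → ℕ → ℝ} {G : ℕ → ℕ → Prop} {B : ℕ} {ε δ C N R : ℝ}
    (hC : 0 < C) (hN : 0 < N) (hδ : 0 ≤ δ)
    (hB : ∀ m q, G m q → m ≤ B ∧ q ≤ B)
    (hG1 : ∀ m q, G m q → 1 ≤ m)
    (hGR : ∀ m q, G m q → xx m + 2 ≤ R * N ∧ xx q + 2 ≤ R * N)
    (hu : ∀ m q, G m q → KK u m q = u m q)
    (hv : ∀ m q, G m q → 1 ≤ q → |KK v m q - v m q| ≤ C / N ^ 3)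
    (hv0 : ∀ m, G m 0 → |KK v m 0 - v m 0| ≤ C / N ^ 2)
    (hb : ∀ m q m' q', G m q → nb m q m' q' → ¬ G m' q' →
      |u m' q' - v m' q'| ≤ ε + δ * Real.sqrt (xx m')) :
    ∀ m q, G m q → |u m q - v m q| ≤ ε + δ * Real.sqrt (xx m) + C * (R ^ 2 + 2 * R) / N := by
  intro m q hG
  rw [abs_le]
  constructor
  · have := compare1 (w := fun a b => v a b - u a b)
      (ev := fun a b => |KK v a b - v a b|) (ε := ε) (δ := δ) hC hN hδ hB hG1 hGR
      (by
        intro a b h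
        rw [KK_sub, hu a b h]
        have := neg_abs_le (KK v a b - v a b)
        linarith) hv hv0
      (by
        intro a b a' b' h1 h2 h3
        have := (abs_le.1 (hb a b a' b' h1 h2 h3)).1
        linarith) m q hG
    linarith
  · have := compare1 (w := fun a b => u a b - v a b)
      (ev := fun a b => |KK v a b - v a b|) (ε := ε) (δ := δ) hC hN hδ hB hG1 hGR
      (by
        intro a b h
        rw [KK_sub, hu a b h]
        have := le_abs_self (KK v a b - v a b)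
        linarith) hv hv0
      (by
        intro a b a' b' h1 h2 h3
        exact (abs_le.1 (hb a b a' b' h1 h2 h3)).2) m q hG
    exact this

end JL31
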